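import Mathlib
import Pool.Graph.R_seed8.Results.MP_bf0901_co.ParityLimit
import Pool.Agent.KS6_67.NS.Sum

/-!
# MP_bf0901_co: the type of a numerical semigroup of large genus is equidistributed modulo every `q`

For every `q ≥ 1` and every `r` the proportion of the numerical semigroups of genus `g` whose type is
congruent to `r` modulo `q` tends to `1 / q`, with an exponentially small error.  The case `q = 2`,
`r = 1` is the question.

For every complex number `z ≠ 1` of modulus one, the sum of `z ^ t(S)` over the numerical semigroups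
`S` of genus `g` is exponentially smaller than their number.  By the analysis of the earlier run
(which has `z = -1`) almost all semigroups are given by words in `1, 2, 3` without a `3` beyond the
position `L`, and the type is the number of `2`s in the middle of the word plus a function of the
two outer parts.  The sums `a_n` of `z ^ (number of 2s)` over the compositions of `n` into ones and
twos satisfy `a_{n+2} = a_{n+1} + z a_n`; so `|a_{n+3}| ≤ |1 + z| |a_{n+1}| + |a_n|`, and as
`|1 + z| < 2` they grow at a rate `ρ` smaller than the golden ratio.  The length of the outer parts is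
then chosen as a sufficiently small proportion of `g`, which depends on `z`.
-/

set_option autoImplicit false

namespace Pool.Agent.Results.MP_bf0901_co.EquidistributedTypes

open Filter Topology Pool.Agent.H502R2 Pool.Agent.R104.PT Pool.Agent.KS6_67.NS
open scoped goldenRatio

/-- the set of all numerical semigroups of genus `g`: subsets `S` of `ℕ` containing `0`, closed
under addition, with exactly `g` gaps -/
def NS (g : ℕ) : Set (Set ℕ) :=
  {S | 0 ∈ S ∧ (∀ a ∈ S, ∀ b ∈ S, a + b ∈ S) ∧ Sᶜ.Finite ∧ Sᶜ.ncard = g}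

/-- the pseudo-Frobenius numbers of `S`: integers `x`, not in `S`, with `x + s ∈ S` for all
`s ∈ S \ {0}` -/
def PFZ (S : Set ℕ) : Set ℤ :=
  {x | (∀ y ∈ S, (y : ℤ) ≠ x) ∧ ∀ s ∈ S, s ≠ 0 → ∃ y ∈ S, (y : ℤ) = x + s}

/-- the type -/
noncomputable def typ (S : Set ℕ) : ℕ := (PFZ S).ncard

/-- the number of numerical semigroups of genus `g` -/
noncomputable def n (g : ℕ) : ℕ := (NS g).ncard

/-- the number of numerical semigroups of genus `g` whose type is congruent to `r` modulo `q` -/
noncomputable def nmod (q r g : ℕ) : ℕ := {S | S ∈ NS g ∧ typ S ≡ r [MOD q]}.ncard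

theorem n_eq' (g : ℕ) : n g = (SF g).card := ParityLimit.n_eq g

open Classical in
theorem nmod_eq {q r g : ℕ} (hg : 1 ≤ g) : nmod q r g =
    ((SF g).filter (fun S : AddSubmonoid ℕ => (PF (S : Set ℕ)).ncard ≡ r [MOD q])).card := by
  have h : {S | S ∈ NS g ∧ typ S ≡ r [MOD q]} = (fun S : AddSubmonoid ℕ => (S : Set ℕ)) ''
      ((SF g).filter (fun S : AddSubmonoid ℕ => (PF (S : Set ℕ)).ncard ≡ r [MOD q]) :
        Set (AddSubmonoid ℕ)) := by
    ext S
    have hmem : S ∈ NS g ↔ ∃ T ∈ SG g, (T : Set ℕ) = S := ParityLimit.mem_NS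
    rw [Set.mem_ofPred_eq, hmem]
    constructor
    · rintro ⟨⟨T, hT, rfl⟩, hodd⟩
      refine ⟨T, ?_, rfl⟩
      rw [Finset.mem_coe, Finset.mem_filter, mem_SF]
      have ht : typ (T : Set ℕ) = (PF (T : Set ℕ)).ncard := ParityLimit.typ_eq hT hg
      rw [ht] at hodd
      exact ⟨hT, hodd⟩
    · rintro ⟨T, hT, rfl⟩
      rw [Finset.mem_coe, Finset.mem_filter, mem_SF] at hT
      refine ⟨⟨T, hT.1, rfl⟩, ?_⟩
      have ht : typ (T : Set ℕ) = (PF (T : Set ℕ)).ncard := ParityLimit.typ_eq hT.1 hg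
      rw [ht]
      exact hT.2
  rw [nmod, h, Set.ncard_image_of_injective _ SetLike.coe_injective, Set.ncard_coe_finset]

/-- orthogonality of the characters modulo `q` -/
theorem char_sum {q : ℕ} (_hq : 1 ≤ q) {ω : ℂ} (hω : IsPrimitiveRoot ω q) (m : ℕ) :
    ∑ j ∈ Finset.range q, (ω ^ j) ^ m = if q ∣ m then (q : ℂ) else 0 := by
  have e : ∀ j, (ω ^ j) ^ m = (ω ^ m) ^ j := by
    intro j; rw [← pow_mul, ← pow_mul, mul_comm]
  rw [Finset.sum_congr rfl fun j _ => e j]
  split_ifs with h
  · have h1 : ω ^ m = 1 := (hω.pow_eq_one_iff_dvd m).2 h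
    rw [h1]; simp
  · have h1 : ω ^ m ≠ 1 := fun h' => h ((hω.pow_eq_one_iff_dvd m).1 h')
    rw [geom_sum_eq h1, ← pow_mul, mul_comm, pow_mul, hω.pow_eq_one, one_pow, sub_self, zero_div]

theorem key_identity {q : ℕ} (hq : 1 ≤ q) {ω : ℂ} (hω : IsPrimitiveRoot ω q) (r g : ℕ)
    (hg : 1 ≤ g) : (q : ℂ) * nmod q r g =
      ∑ j ∈ Finset.range q, (ω ^ j) ^ (q - r % q) * DZ (ω ^ j) g := by
  classical
  have h1 : ∀ j ∈ Finset.range q, (ω ^ j) ^ (q - r % q) * DZ (ω ^ j) g =
      ∑ S ∈ SF g, (ω ^ j) ^ ((q - r % q) + (PF (S : Set ℕ)).ncard) := by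
    intro j _
    rw [DZ, Finset.mul_sum]
    exact Finset.sum_congr rfl fun S _ => (pow_add _ _ _).symm
  rw [Finset.sum_congr rfl h1, Finset.sum_comm]
  have h2 : ∀ S ∈ SF g, ∑ j ∈ Finset.range q, (ω ^ j) ^ ((q - r % q) + (PF (S : Set ℕ)).ncard) =
      if (PF (S : Set ℕ)).ncard ≡ r [MOD q] then (q : ℂ) else 0 := by
    intro S _
    rw [char_sum hq hω]
    have hlt : r % q < q := Nat.mod_lt _ hq
    have : q ∣ (q - r % q) + (PF (S : Set ℕ)).ncard ↔ (PF (S : Set ℕ)).ncard ≡ r [MOD q] := by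
      set t := (PF (S : Set ℕ)).ncard
      have e : (q - r % q) + t = t + q - r % q := by omega
      rw [e, ← Nat.modEq_iff_dvd' (by omega : r % q ≤ t + q)]
      unfold Nat.ModEq
      rw [Nat.mod_mod, Nat.add_mod_right]
      exact eq_comm
    by_cases h : (PF (S : Set ℕ)).ncard ≡ r [MOD q]
    · rw [if_pos h, if_pos (this.2 h)]
    · rw [if_neg h, if_neg (fun h' => h (this.1 h'))]
  rw [Finset.sum_congr rfl h2, nmod_eq hg, Finset.card_filter]
  push_cast
  rw [Finset.mul_sum]
  apply Finset.sum_congr rfl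
  intro S _
  split_ifs <;> simp

/-- a common rate for finitely many roots of unity -/
theorem common_rate {q : ℕ} {ω : ℂ} (hω : IsPrimitiveRoot ω q) (hq : 1 ≤ q) (N : ℕ) (hN : N ≤ q) :
    ∃ C γ : ℝ, 0 ≤ C ∧ 0 < γ ∧ γ < 1 ∧ ∀ g : ℕ,
      ∑ j ∈ Finset.Ico 1 N, ‖DZ (ω ^ j) g‖ ≤ C * γ ^ g * φ ^ g := by
  induction N with
  | zero => exact ⟨0, 1 / 2, le_rfl, by norm_num, by norm_num, fun g => by simp⟩
  | succ N ih =>
    rcases Nat.lt_or_ge N 1 with h0 | h0
    · have : N = 0 := by omega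
      subst this
      exact ⟨0, 1 / 2, le_rfl, by norm_num, by norm_num, fun g => by simp⟩
    · obtain ⟨C, γ, hC, hγ0, hγ1, hb⟩ := ih (by omega)
      have hω1 : ‖ω ^ N‖ = 1 := by
        rw [norm_pow, hω.norm'_eq_one (by omega), one_pow]
      have hne : ω ^ N ≠ 1 := by
        intro h
        have := (hω.pow_eq_one_iff_dvd N).1 h
        have := Nat.le_of_dvd (by omega) this
        omega
      obtain ⟨C', γ', hC', hγ0', hγ1', hb'⟩ := DZ_bound hω1 hne
      refine ⟨C + C', max γ γ', by positivity, lt_max_of_lt_left hγ0, max_lt hγ1 hγ1', fun g => ?_⟩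
      rw [Finset.sum_Ico_succ_top h0]
      have hφ : (0 : ℝ) < φ ^ g := pow_pos Real.goldenRatio_pos _
      have e1 : γ ^ g ≤ (max γ γ') ^ g := pow_le_pow_left₀ hγ0.le (le_max_left _ _) g
      have e2 : γ' ^ g ≤ (max γ γ') ^ g := pow_le_pow_left₀ hγ0'.le (le_max_right _ _) g
      have b1 := hb g
      have b2 := hb' g
      have c1 : C * γ ^ g * φ ^ g ≤ C * (max γ γ') ^ g * φ ^ g :=
        mul_le_mul_of_nonneg_right (mul_le_mul_of_nonneg_left e1 hC) hφ.le
      have c2 : C' * γ' ^ g * φ ^ g ≤ C' * (max γ γ') ^ g * φ ^ g :=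
        mul_le_mul_of_nonneg_right (mul_le_mul_of_nonneg_left e2 hC') hφ.le
      calc _ ≤ C * (max γ γ') ^ g * φ ^ g + C' * (max γ γ') ^ g * φ ^ g :=
            add_le_add (b1.trans c1) (b2.trans c2)
        _ = _ := by ring

/-- **The type is equidistributed modulo every `q`**: for every `q ≥ 1` there are `C` and `γ < 1` such
that for all `r` and all `g ≥ 1` the proportion of the numerical semigroups of genus `g` whose type is
congruent to `r` modulo `q` differs from `1 / q` by at most `C γ ^ g`; in particular it tends to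
`1 / q`. -/
theorem result (q : ℕ) (hq : 1 ≤ q) :
    (∀ r : ℕ, Tendsto (fun g => (nmod q r g : ℝ) / n g) atTop (𝓝 (1 / q))) ∧
    ∃ C γ : ℝ, 0 < γ ∧ γ < 1 ∧ ∀ r g : ℕ, 1 ≤ g →
      |(nmod q r g : ℝ) / n g - 1 / q| ≤ C * γ ^ g := by
  have hmain : ∃ C γ : ℝ, 0 < γ ∧ γ < 1 ∧ ∀ r g : ℕ, 1 ≤ g →
      |(nmod q r g : ℝ) / n g - 1 / q| ≤ C * γ ^ g := by
    have hω : IsPrimitiveRoot (Complex.exp (2 * Real.pi * Complex.I / q)) q :=
      Complex.isPrimitiveRoot_exp q (by omega)
    set ω := Complex.exp (2 * Real.pi * Complex.I / q) with hωd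
    obtain ⟨C, γ, hC, hγ0, hγ1, hb⟩ := common_rate hω hq q le_rfl
    have hqr : (1 : ℝ) ≤ q := by exact_mod_cast hq
    refine ⟨C + 1 / γ ^ 20, γ, hγ0, hγ1, fun r g hg => ?_⟩
    have hp : (0 : ℝ) < γ ^ g := by positivity
    have hp20 : (0 : ℝ) < γ ^ 20 := by positivity
    rcases Nat.lt_or_ge g 20 with h20 | h20
    · have h1 : (nmod q r g : ℝ) ≤ n g := by
        have : nmod q r g ≤ n g := by
          classical
          rw [n_eq', nmod_eq hg]
          exact Finset.card_le_card (Finset.filter_subset _ _)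
        exact_mod_cast this
      have h2 : (0 : ℝ) ≤ (nmod q r g : ℝ) / n g := by positivity
      have h3 : (nmod q r g : ℝ) / n g ≤ 1 := div_le_one_of_le₀ h1 (Nat.cast_nonneg _)
      have h4 : (0 : ℝ) ≤ 1 / q := by positivity
      have h4' : (1 : ℝ) / q ≤ 1 := by rw [div_le_one (by linarith)]; exact hqr
      have h5 : |(nmod q r g : ℝ) / n g - 1 / q| ≤ 1 := by
        rw [abs_le]; constructor <;> linarith
      have h6 : (1 : ℝ) ≤ 1 / γ ^ 20 * γ ^ g := by
        rw [one_div, inv_mul_eq_div, one_le_div hp20]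
        exact pow_le_pow_of_le_one hγ0.le hγ1.le h20.le
      have h7 : 0 ≤ C * γ ^ g := by positivity
      calc _ ≤ (1 : ℝ) := h5
        _ ≤ C * γ ^ g + 1 / γ ^ 20 * γ ^ g := by linarith
        _ = _ := by ring
    · have hn : 2 * φ ^ g ≤ (n g : ℝ) := ParityLimit.n_lower h20
      have hφg : (0 : ℝ) < φ ^ g := pow_pos Real.goldenRatio_pos _
      have hn0 : (0 : ℝ) < n g := by linarith
      have hk := key_identity hq hω r g hg
      -- the term `j = 0`
      have h0 : DZ (ω ^ 0) g = (n g : ℂ) := by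
        rw [DZ, pow_zero, n_eq']
        simp
      rw [Finset.range_eq_Ico, Finset.sum_eq_sum_Ico_succ_bot (by omega), h0, pow_zero, one_pow,
        one_mul] at hk
      have hnorm : ‖∑ j ∈ Finset.Ico (0 + 1) q, (ω ^ j) ^ (q - r % q) * DZ (ω ^ j) g‖ ≤
          C * γ ^ g * φ ^ g := by
        refine (norm_sum_le _ _).trans ?_
        refine le_trans (le_of_eq ?_) (hb g)
        apply Finset.sum_congr rfl
        intro j _
        rw [norm_mul, norm_pow, norm_pow, hω.norm'_eq_one (by omega), one_pow, one_pow, one_mul]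
      have hdiff : ((q * nmod q r g - n g : ℝ) : ℂ) =
          ∑ j ∈ Finset.Ico (0 + 1) q, (ω ^ j) ^ (q - r % q) * DZ (ω ^ j) g := by
        push_cast
        rw [hk]; ring
      have habs : |(q : ℝ) * nmod q r g - n g| ≤ C * γ ^ g * φ ^ g := by
        rw [← hdiff, Complex.norm_real, Real.norm_eq_abs] at hnorm
        exact hnorm
      have e : (nmod q r g : ℝ) / n g - 1 / q = ((q : ℝ) * nmod q r g - n g) / (q * n g) := by
        field_simp
      rw [e, abs_div, abs_of_pos (by positivity : (0 : ℝ) < q * n g), div_le_iff₀ (by positivity)]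
      have h2 : 0 ≤ C * γ ^ g := by positivity
      have h3 : φ ^ g ≤ q * n g := by nlinarith
      have h4 : C * γ ^ g ≤ (C + 1 / γ ^ 20) * γ ^ g := by
        apply mul_le_mul_of_nonneg_right _ hp.le
        have : 0 ≤ 1 / γ ^ 20 := by positivity
        linarith
      calc _ ≤ C * γ ^ g * φ ^ g := habs
        _ ≤ (C + 1 / γ ^ 20) * γ ^ g * (q * n g) := mul_le_mul h4 h3 hφg.le (by positivity)
  refine ⟨fun r => ?_, hmain⟩
  obtain ⟨C, γ, hγ0, hγ1, hC⟩ := hmain
  rw [tendsto_iff_norm_sub_tendsto_zero]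
  have hz : Tendsto (fun g : ℕ => C * γ ^ g) atTop (𝓝 0) := by
    have := (tendsto_pow_atTop_nhds_zero_of_lt_one hγ0.le hγ1).const_mul C
    rwa [mul_zero] at this
  refine squeeze_zero' (Eventually.of_forall fun g => norm_nonneg _) ?_ hz
  filter_upwards [eventually_ge_atTop 1] with g hg
  rw [Real.norm_eq_abs]
  exact hC r g hg

end Pool.Agent.Results.MP_bf0901_co.EquidistributedTypes
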